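import Pool.Agent.Q31.GLV.Stm

/-! The shift minus a scalar is injective (job SHI of project GLV, helper31). -/

set_option autoImplicit false

namespace Pool.Agent.Q154.GLV

open Pool.Agent.Q31.GLV Module

theorem t_SHI : S_SHI := by
  classical
  intro F V ι _ _ _ e h c he hsh
  rw [linearIndependent_iff]
  intro l hl
  let σ : ι × ℤ → ι × ℤ := fun p => (p.1, p.2 + 1)
  have hσ : Function.Injective σ := by
    intro p q hpq
    simp only [σ, Prod.mk.injEq] at hpq
    exact Prod.ext hpq.1 (by omega)
  have h1 : Finsupp.linearCombination F e (l.mapDomain σ - c • l) = 0 := by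
    rw [map_sub, map_smul, Finsupp.linearCombination_mapDomain, ← hl]
    simp only [Finsupp.linearCombination_apply, Finsupp.sum, smul_sub, Finset.sum_sub_distrib]
    congr 1
    · apply Finset.sum_congr rfl
      intro p _
      show l p • e (p.1, p.2 + 1) = l p • h (e p)
      rw [← hsh p.1 p.2]
    · rw [Finset.smul_sum]
      apply Finset.sum_congr rfl
      intro p _
      rw [smul_comm]
  have h2 : l.mapDomain σ - c • l = 0 := linearIndependent_iff.1 he _ h1
  have h3 : ∀ p, l p = c * l (σ p) := by
    intro p
    have h4 := DFunLike.congr_fun h2 (σ p)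
    rw [Finsupp.sub_apply, Finsupp.mapDomain_apply hσ, Finsupp.smul_apply, Finsupp.zero_apply,
      sub_eq_zero, smul_eq_mul] at h4
    exact h4
  by_contra hne
  have hsupp : l.support.Nonempty := Finsupp.support_nonempty_iff.2 hne
  obtain ⟨p, hp, hmax⟩ := Finset.exists_max_image l.support (fun p => p.2) hsupp
  have h5 : l (σ p) = 0 := by
    by_contra h6
    have h7 := hmax (σ p) (Finsupp.mem_support_iff.2 h6)
    simp only [σ] at h7
    omega
  have h8 := h3 p
  rw [h5, mul_zero] at h8
  exact Finsupp.mem_support_iff.1 hp h8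

end Pool.Agent.Q154.GLV
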