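import Pool.Agent.Q31.GLV.Stm

/-! Transitivity on the large subspaces (job TRA of project GLV, helper31). -/

set_option autoImplicit false

namespace Pool.Agent.Q154.GLV

open Pool.Agent.Q31.GLV Module

theorem t_TRA (h1 : S_CHN) (h2 : S_NEA) : S_TRA := by
  intro F V _ _ _ hV S hS A B hA hB
  obtain ⟨X, hX, hAX, hXB⟩ := h1 F V hV A B hA hB
  obtain ⟨s, hs, hs'⟩ := h2 F V S hS A X hA hX hAX
  obtain ⟨t, ht, ht'⟩ := h2 F V S hS X B hX hB hXB
  refine ⟨t * s, S.mul_mem ht hs, ?_⟩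
  have e : ((t * s : V ≃ₗ[F] V) : V →ₗ[F] V) = (t : V →ₗ[F] V) ∘ₗ (s : V →ₗ[F] V) := rfl
  rw [e, Submodule.map_comp, hs', ht']

end Pool.Agent.Q154.GLV
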